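import Mathlib
import Pool.Agent.K9h75.BD.Fin4

/-!
# Parry powers and the degree over fields which are central at two prime numbers

Let `L ⊆ ℂ` be a Galois extension of `ℚ`, of finite or infinite degree, and `r` a prime number. We
say that `L` is locally central at `r` (with parameters `d`, `e`) if in the Galois group of each
finite layer `K` of `L` and for each prime ideal above `r` the `d`-th powers of the elements of the
decomposition group are central, and the central elements form a subgroup of index at most `e` of
the inertia group. This holds with `d = e` if all `d`-th powers in `Gal(L/ℚ)` are central and `r` does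
not divide `d`; so it holds for the maximal abelian extension of `ℚ`, with `d = e = 1`. It also holds
with `d = e = 1`, for two prime numbers `p` and `q`, for the compositum of the maximal abelian
extension and of all Galois number fields, with any Galois groups, in which `p` and `q` split
completely.

Let `β` be a Perron number of degree `n` over `ℚ` and of degree at most `D` over a field `L` which is
locally central at two prime numbers `p < q`. No condition is put on the other conjugates or the
Galois group of `β`, nor on the ramification in `L`, and `L` need not be contained in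
`ℚ(β)`.

* If `225 e ^ 2 D q ^ (4 d + 4) exp (2 √(3 d log q log D)) (log β) ^ 2 < n`, then only finitely many
  powers of `β` are Parry numbers.
* So for all `B`, `d`, `e`, `p`, `q` there is `C` such that the Salem numbers and the Pisot numbers
  `β ≤ B` of degree `n > 1` have degree greater than `n exp (-C √(log n))` over each such field. In
  particular, for all `D` and `κ < 1` the degrees of those of degree at most `D n ^ κ` over such a
  field are bounded.

Method. Let `M` be a finite Galois extension of `ℚ` containing `β` and the coefficients of its
minimal polynomial over `L`, let `H` be the subgroup of `Γ = Gal(M/ℚ)` generated by `Gal(M/M ∩ L)`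
and the stabilizer of `β`, and let `F ⊆ ℚ(β)` be its fixed field, of degree `m` over `ℚ`; the degree
of `ℚ(β)` over `F` is at most `D`, and the Galois closure `L₀` of `F` is contained in `L`. For
`r ∈ {p, q}` let `W` be the group of the central elements of order a power of `r` of an inertia group
at `r` in `Gal(L₀/ℚ)` (it is the kernel of the tame character on the central elements). The
ramification index is at most `e (r - 1) |W|`, as the values of the tame character on elements
commuting with a Frobenius element are roots of unity of order dividing `r - 1`. The `d`-th power `σ`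
of a Frobenius element is central and does not depend on the prime above `r`; so it induces an
automorphism of `F` with `x ^ (r ^ (d + k)) ≡ σ(x) ^ (r ^ k)` modulo `r` for all integers `x` of `F`,
if `r ^ k ≥ e (r - 1) |W|`. With the energy method of the file `Pool.Agent.Q262.RL.Step` (several
levels of exponents) this gives `m ≤ A |W|` with `A = 15 e q ^ (2 d + 2) exp (√(3 d log q log D)) log β`,
if all other conjugates of `β` lie in the closed unit disc. Finally the central `p`-group and the
central `q`-group found in this way both meet the image of `H` trivially, as this has trivial normal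
core; so the product of their orders is at most the index `m`, and for one of the two primes
`|W| ≤ √m` and `m ≤ A ^ 2`.
-/

set_option autoImplicit false

open NumberField

namespace Pool.Agent.Results.MP_1f45fc_nt.CentralAtTwoPrimes

open Pool.Agent.W738.SAL

/-- For every prime ideal `P` of the number field `K` above `r`, the `d`-th powers of the elements of
the decomposition group of `P` are central in the automorphism group of `K`, and the central elements
of the inertia group of `P` form a subgroup of index at most `e`. -/
def CentralAt (K : Type) [Field K] [NumberField K] (r d e : ℕ) : Prop :=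
  ∀ P : Ideal (𝓞 K), P.IsPrime → (r : 𝓞 K) ∈ P →
    (∀ g : K ≃ₐ[ℚ] K, (∀ x ∈ P, g • x ∈ P) → ∀ h : K ≃ₐ[ℚ] K, g ^ d * h = h * g ^ d) ∧
    Nat.card (P.inertia (K ≃ₐ[ℚ] K)) ≤
      e * Nat.card (P.inertia (K ≃ₐ[ℚ] K) ⊓ Subgroup.center (K ≃ₐ[ℚ] K) : Subgroup (K ≃ₐ[ℚ] K))

/-- `L` is a (finite or infinite) Galois extension of `ℚ`, and all Galois number fields `K` which
embed in `L` satisfy the condition `CentralAt K r d e`. -/
def LocallyCentral (L : IntermediateField ℚ ℂ) (r d e : ℕ) : Prop :=
  IsGalois ℚ L ∧ ∀ (K : Type) [Field K] [NumberField K] [IsGalois ℚ K] (f : K →+* ℂ),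
    (∀ y, f y ∈ L) → CentralAt K r d e

/-- the degree of `β` over `ℚ` -/
noncomputable def deg (β : ℝ) : ℕ := (minpoly ℚ β).natDegree

/-- the degree of `β` over `L` -/
noncomputable def degOver (L : IntermediateField ℚ ℂ) (β : ℝ) : ℕ := (minpoly L (β : ℂ)).natDegree

/-- (1) the explicit bound; (2) the asymptotic form; (3) finite exponent modulo the centre -/
theorem result :
    (∀ (β : ℝ) (L : IntermediateField ℚ ℂ) (d e D p q : ℕ), IsPerron β → degOver L β ≤ D →
      0 < d → 0 < e → p.Prime → q.Prime → p < q → LocallyCentral L p d e →
      LocallyCentral L q d e →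
      225 * (e : ℝ) ^ 2 * D * (q : ℝ) ^ (4 * d + 4) *
        Real.exp (2 * √(3 * d * Real.log q * Real.log D)) * Real.log β ^ 2 < deg β →
        (ParryPowers β).Finite) ∧
    (∀ (B : ℝ) (d e p q : ℕ), 0 < d → 0 < e → p.Prime → q.Prime → p < q → ∃ C : ℝ, 0 < C ∧
      ∀ (β : ℝ) (L : IntermediateField ℚ ℂ), IsPerron β → LocallyCentral L p d e →
        LocallyCentral L q d e → β ≤ B → 1 < deg β →
        (degOver L β : ℝ) ≤ deg β * Real.exp (-C * √(Real.log (deg β))) →
          (ParryPowers β).Finite) ∧
    (∀ (L : IntermediateField ℚ ℂ) (r d : ℕ), IsGalois ℚ L → r.Prime → 0 < d → ¬ r ∣ d →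
      (∀ σ τ : L ≃ₐ[ℚ] L, σ ^ d * τ = τ * σ ^ d) → LocallyCentral L r d d) := by
  refine ⟨?_, ?_, ?_⟩
  · rintro β L d e D p q hP hD hd he hp hq hpq hlp hlq hdeg
    exact Pool.Agent.K9h75.BD.explicit4 hP L (hLn := hlp.1.to_normal) hd he hD hp hq hpq hlp.2
      hlq.2 hdeg
  · intro B d e p q hd he hp hq hpq
    obtain ⟨C, hC, h⟩ := Pool.Agent.K9h75.BD.asym4 B d e hd he hp hq hpq
    exact ⟨C, hC, fun β L hP hlp hlq hB hn hD => h β L hP hlp.1.to_normal hlp.2 hlq.2 hB hn hD⟩
  · intro L r d hL hr hd hdr hcen
    exact ⟨hL, Pool.Agent.K9h75.BD.locL_of_exp L (hLn := hL.to_normal) hr hd hdr hcen⟩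

end Pool.Agent.Results.MP_1f45fc_nt.CentralAtTwoPrimes
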