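import Mathlib
import Pool.Agent.K8h8.FE.Main

/-!
# Small Perron numbers with Parry powers: few over each number field

For every number field `K` of degree `N` and every `r ≤ 4` there are at most `40 r N log (2 r N)`
Perron numbers `β` below Lehmer's number for which `ℚ(β + β⁻¹)` is an extension of `K` of degree at
most `r` and some power `β ^ n` with `n ≥ 100 r ^ 2 N` is a Parry number. For `r > 4` the same holds
for the `β` with `3 r (β - 1) ≤ 2 √β`.

Method. If `β` is such a number then (Smyth) `β⁻¹` is a conjugate of `β`, and the other conjugates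
of `t = β + β⁻¹` are extremely close to `[-2, 2]`. The product of the differences of all the
conjugates over `K` of `m` such numbers `t` is a nonzero algebraic integer of `K`, and its norm is
estimated from above by Hadamard's inequality with the monic Chebyshev polynomials of `[-2, 2]`. At
the given place `K ⊆ ℝ`, and only there, `m` of the at most `r m` points are in the short interval
`(2, 2 + 4 / (9 r ^ 2)]`; here the rows of these points are replaced by divided differences.
-/

set_option autoImplicit false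

open Polynomial IntermediateField

namespace Pool.Agent.Results.MP_1f45fc_nt.FewOverEachField

/-- `β` is a Perron number: a real algebraic integer `> 1` all of whose other conjugates have absolute
value smaller than `β`. -/
def IsPerron (β : ℝ) : Prop :=
  1 < β ∧ IsIntegral ℤ β ∧ ∀ z : ℂ, aeval z (minpoly ℤ β) = 0 → z ≠ (β : ℂ) → ‖z‖ < β

/-- `B` is a Parry number: the orbit of `1` under `x ↦ B x - ⌊B x⌋` is finite. -/
def IsParry (B : ℝ) : Prop :=
  Set.Finite (Set.range (fun k : ℕ => (fun x : ℝ => Int.fract (B * x))^[k] (1 : ℝ)))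

/-- `τ` is Lehmer's number. -/
def IsLehmer (τ : ℝ) : Prop :=
  1 < τ ∧ τ ^ 10 + τ ^ 9 - τ ^ 7 - τ ^ 6 - τ ^ 5 - τ ^ 4 - τ ^ 3 + τ + 1 = 0

/-- the field generated by `β + β⁻¹` -/
noncomputable def traceField (β : ℝ) : IntermediateField ℚ ℝ := ℚ⟮β + β⁻¹⟯

/-- The Perron numbers `β < τ` with `r ≤ 4` or `3 r (β - 1) ≤ 2 √β` such that `ℚ(β + β⁻¹)` is an
extension of `K` of degree at most `r` and `β ^ n` is a Parry number for some
`n ≥ 100 r ^ 2 [K : ℚ]`. -/
def exceptions (τ : ℝ) (K : IntermediateField ℚ ℝ) (r : ℕ) : Set ℝ :=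
  {β : ℝ | IsPerron β ∧ β < τ ∧ (r ≤ 4 ∨ 3 * r * (β - 1) ≤ 2 * Real.sqrt β) ∧ K ≤ traceField β ∧
    Module.finrank ℚ (traceField β) ≤ r * Module.finrank ℚ K ∧
    ∃ n : ℕ, 100 * r ^ 2 * Module.finrank ℚ K ≤ n ∧ IsParry (β ^ n)}

/-- For every number field `K ⊆ ℝ` and `r ≥ 1` there are at most
`40 r [K : ℚ] log (2 r [K : ℚ])` exceptions. -/
theorem result (τ : ℝ) (hτ : IsLehmer τ) (K : IntermediateField ℚ ℝ) [FiniteDimensional ℚ K]
    (r : ℕ) (hr : 1 ≤ r) :
    (exceptions τ K r).Finite ∧ ((exceptions τ K r).ncard : ℝ) ≤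
      40 * (r * Module.finrank ℚ K) * Real.log (2 * (r * Module.finrank ℚ K)) := by
  have hτ2 := Pool.Agent.H892.Parry.lehmer_lt hτ.1 hτ.2
  have key : ∀ S : Finset ℝ, (S : Set ℝ) ⊆ exceptions τ K r → (S.card : ℝ) ≤
      40 * (r * Module.finrank ℚ K) * Real.log (2 * (r * Module.finrank ℚ K)) := by
    intro S hS
    apply Pool.Agent.K8h8.FE.main_bound K r hr S
    intro β hβ
    obtain ⟨h1, h2, h3, h4, h5, h6⟩ := hS hβ
    exact ⟨h1, by linarith, h3, h4, h5, h6⟩
  have hfin : (exceptions τ K r).Finite := by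
    by_contra hinf
    obtain ⟨B, hB⟩ := exists_nat_gt
      (40 * (r * Module.finrank ℚ K : ℝ) * Real.log (2 * (r * Module.finrank ℚ K)))
    obtain ⟨S, hS1, hS2⟩ := Set.Infinite.exists_subset_card_eq hinf B
    have h1 := key S hS1
    rw [hS2] at h1
    linarith
  refine ⟨hfin, ?_⟩
  rw [Set.ncard_eq_toFinset_card _ hfin]
  apply key
  rw [Set.Finite.coe_toFinset]

end Pool.Agent.Results.MP_1f45fc_nt.FewOverEachField
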