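import Mathlib
import Pool.Agent.K9h56.PD.Final

/-!
# MP_1f45fc_nt: the limit law for the beta-expansions of the powers of a Salem number

Let `β` be a Salem number of degree `2 m + 2`. For every exponent sequence `e` that equidistributes with all irrational
multiples (`e n = n`, the values of a polynomial, ...) the number of elements of the `β ^ e n`-orbit of `1` has a limit
distribution, and the limit depends only on the degree: the proportion of the `n` for which the orbit is finite and has
at most `s` elements tends to `G m s`, the Haar measure of an explicit set in the `m`-dimensional torus, which is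
positive if and only if `s ≥ 2 m + 2`. By the known criterion of the problem file, the counterexamples to Q1 would be
the Salem numbers below Lehmer's number.
-/

set_option autoImplicit false

namespace Pool.Agent.Results.MP_1f45fc_nt.ParryLimitLaw

open Polynomial Filter Topology MeasureTheory

/-- The orbit of `1` under `x ↦ fract (B x)`; the number `B > 1` is a Parry number when this set is finite. -/
noncomputable def orbit (B : ℝ) : Set ℝ := Set.range fun k : ℕ => (fun x : ℝ => Int.fract (B * x))^[k] (1 : ℝ)

/-- Salem numbers. -/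
def Salem (β : ℝ) : Prop :=
  1 < β ∧ IsIntegral ℤ β ∧ (∀ z : ℂ, aeval z (minpoly ℤ β) = 0 → z ≠ (β : ℂ) → ‖z‖ ≤ 1) ∧
    ∃ z : ℂ, aeval z (minpoly ℤ β) = 0 ∧ ‖z‖ = 1

/-- The sequence `e` tends to infinity and `α e(n)` satisfies Weyl's criterion for every irrational `α`. -/
def Equidistributing (e : ℕ → ℕ) : Prop :=
  Tendsto e atTop atTop ∧ ∀ α : ℝ, Irrational α → Tendsto (fun N : ℕ =>
    (1 / (N : ℂ)) * ∑ n ∈ Finset.range N, Complex.exp (2 * Real.pi * ((α * e n : ℝ) : ℂ) * Complex.I)) atTop (𝓝 0)

/-- The product of the polynomials `X ^ 2 - 2 cos (2 π y_j) X + 1`. -/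
noncomputable def Q {m : ℕ} (y : Fin m → UnitAddCircle) : ℝ[X] :=
  ∏ j : Fin m, (X ^ 2 - C (2 * ((AddCircle.toCircle (y j) : Circle) : ℂ).re) * X + 1)

/-- The points `y` of the torus for which there is a monic integer polynomial `A` with constant coefficient `1`,
of degree at most `s - 2 m - 2`, such that all coefficients of `Q y * A` other than the first and the last lie
in `(0, 1]`. -/
def W (m s : ℕ) : Set (Fin m → UnitAddCircle) :=
  {y | ∃ A : ℤ[X], A.Monic ∧ A.coeff 0 = 1 ∧ 2 * m + 2 + A.natDegree ≤ s ∧
    ∀ k, 0 < k → k < 2 * m + A.natDegree →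
      0 < (Q y * A.map (Int.castRingHom ℝ)).coeff k ∧ (Q y * A.map (Int.castRingHom ℝ)).coeff k ≤ 1}

/-- The Haar probability measure of `W m s`. -/
noncomputable def G (m s : ℕ) : ℝ := (volume (W m s)).toReal

/-- The limit law. Let `β` be a Salem number of degree `2 m + 2`. For every `s` and every equidistributing sequence of
exponents `e` the proportion of the `n < N` for which the `β ^ e n`-orbit of `1` is finite and has at most `s`
elements tends to `G m s`, and `G m s` is positive exactly for `s ≥ 2 m + 2`. -/
theorem result :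
    ∀ (β : ℝ) (m : ℕ), Salem β → (minpoly ℤ β).natDegree = 2 * m + 2 → ∀ s : ℕ,
      (0 < G m s ↔ 2 * m + 2 ≤ s) ∧
      ∀ e : ℕ → ℕ, Equidistributing e → Tendsto (fun N : ℕ =>
        ({n : ℕ | n < N ∧ (orbit (β ^ e n)).Finite ∧ (orbit (β ^ e n)).ncard ≤ s}.ncard : ℝ) / N) atTop
        (𝓝 (G m s)) := by
  intro β m hβ hm s
  refine ⟨⟨fun h => ?_, fun h => ?_⟩, fun e he => Pool.Agent.K9h56.PD.salem_law hβ hm he s⟩
  · by_contra h2
    have h3 : G m s = 0 := Pool.Agent.K9h56.PD.GF_zero (by omega)
    linarith
  · obtain ⟨m', hm1, hm'⟩ := Pool.Agent.K9h56.PD.salem_degree hβ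
    have h1 : 1 ≤ m := by omega
    exact lt_of_lt_of_le (Pool.Agent.K9h56.PD.GF_pos h1) (Pool.Agent.K9h56.PD.GF_mono m h)

end Pool.Agent.Results.MP_1f45fc_nt.ParryLimitLaw
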