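import Mathlib
import Pool.Agent.K8h8.UB.Fin

/-!
# Parry powers and Galois extensions of arbitrary number fields of bounded degree

Let `K ⊆ ℂ` be any number field of degree at most `k`, and let `L ⊆ ℂ` be a Galois extension of `K`,
of finite or infinite degree, such that all `d`-th powers of elements of `Gal(L/K)` are central in
`Gal(L/K)`; for instance the maximal abelian extension of `K`, with `d = 1`. Let `β` be a Perron
number of degree `n` over `ℚ` and of degree at most `D` over `L`. It is neither assumed that `L`
or `K` is contained in `ℚ(β)`, nor that `K` or `L` is Galois over `ℚ`, and no condition is put on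
the ramification. (The powers of the elements of `Gal(L/ℚ)` are in general not central, for `K`
different from `ℚ`, for example for the ring class fields of a quadratic field.)

* Let `p < q` be prime numbers not dividing `d`, with `4 ^ (k D) ≤ p`. If
  `k D (2 k d q ^ (k (d + 1) + 1) log β) ^ 2 < n`, then only finitely many powers of `β` are Parry
  numbers.
* So there is a bound for the degrees of the Salem numbers and the Pisot numbers `β ≤ B` of degree
  at most `D` over a Galois extension `L` of this kind of some number field of degree at most `k`,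
  which depends only on `B`, `k`, `d` and `D`.

Method. Let `M` be a finite Galois extension of `ℚ` containing `β`, `K` and the coefficients of the
minimal polynomial of `β` over `L`, let `H` be the subgroup of `Γ = Gal(M/K)` generated by
`Gal(M/M ∩ L)` and the stabilizer of `β`, let `m` be the index of `H` in `Γ` and `L₀ ⊆ L` the
Galois closure over `K` of the fixed field of `H`. Let `𝔭` be any prime ideal of `K` above `p`, and
`N` its norm. The wild inertia group `W` at `𝔭` in `Gal(L₀/K)` is central (`W = W ^ d`), and the
ramification index is at most `d (N - 1) |W|`, by the action of a Frobenius element over `K` on the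
tame quotient. The `d`-th power `σ` of a Frobenius element is central, and
`x ^ (N ^ d p ^ j) ≡ σ(x) ^ (p ^ j)` modulo the whole ideal generated by `𝔭`, if
`p ^ j ≥ d (N - 1) |W|`. Let `β_1, ..., β_r` be the conjugates of `β` over the fixed field of `H`, `a = N ^ d p ^ j`
and `b = p ^ j`. The products of the `β_i ^ a - σ(β_j) ^ b`, for fixed `i`, are in the ideal
generated by `𝔭`. Although `𝔭` may be only one of the primes of `K` above `p`, with small residue field, the norm
inequality gives `N ^ m ≤ 2 ^ (r m k) β ^ ((a + b) k)`, as the number of the embeddings which fix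
`β` is at most `k` times the order of the stabilizer in `Γ`. Hence `m ≤ C |W|`. The groups `W` for
`p` and `q` are central of coprime order in `Gal(L₀/K)`, and meet the image of `H` trivially; so one of
them has order at most `√m`, and `m ≤ C ^ 2`, `n ≤ k D C ^ 2`.
-/

set_option autoImplicit false

namespace Pool.Agent.Results.MP_1f45fc_nt.UniformOverBaseFields

open Pool.Agent.W738.SAL

/-- `K` is a number field of degree at most `k` -/
def DegreeLE (K : IntermediateField ℚ ℂ) (k : ℕ) : Prop :=
  FiniteDimensional ℚ K ∧ Module.finrank ℚ K ≤ k

/-- `L` is a (finite or infinite) Galois extension of `K`, and all `d`-th powers of automorphisms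
of `L` over `K` are central in `Gal(L/K)` -/
def PowersCentral {K : IntermediateField ℚ ℂ} (L : IntermediateField K ℂ) (d : ℕ) : Prop :=
  IsGalois K L ∧ ∀ σ τ : L ≃ₐ[K] L, σ ^ d * τ = τ * σ ^ d

/-- the degree of `β` over `ℚ` -/
noncomputable def deg (β : ℝ) : ℕ := (minpoly ℚ β).natDegree

/-- the degree of `β` over `L` -/
noncomputable def degOver {K : IntermediateField ℚ ℂ} (L : IntermediateField K ℂ) (β : ℝ) : ℕ :=
  (minpoly L (β : ℂ)).natDegree

/-- (1) the explicit bound; (2) the bound depending only on `B`, `k`, `d`, `D` -/
theorem result :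
    (∀ (β : ℝ) (K : IntermediateField ℚ ℂ) (L : IntermediateField K ℂ) (k d D p q : ℕ),
      IsPerron β → DegreeLE K k → PowersCentral L d → degOver L β ≤ D → 0 < d → p.Prime →
      q.Prime → p < q → ¬ p ∣ d → ¬ q ∣ d → 4 ^ (k * D) ≤ p →
      k * D * (2 * k * d * q ^ (k * (d + 1) + 1) * Real.log β) ^ 2 < deg β →
        (ParryPowers β).Finite) ∧
    (∀ (B : ℝ) (k d D : ℕ), 0 < d → ∃ N : ℕ, ∀ (β : ℝ) (K : IntermediateField ℚ ℂ)
      (L : IntermediateField K ℂ), IsPerron β → β ≤ B → DegreeLE K k → PowersCentral L d →
      degOver L β ≤ D → N < deg β → (ParryPowers β).Finite) := by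
  refine ⟨?_, ?_⟩
  · rintro β K L k d D p q hP ⟨hKf, hk⟩ ⟨hL, hcen⟩ hD hd hp hq hpq hpd hqd h4 hdeg
    exact Pool.Agent.K8h8.UB.main_up hP K L (hLn := hL.to_normal) hk hd hcen hD hp hq hpq hpd hqd
      h4 hdeg
  · intro B k d D hd
    obtain ⟨N, hN⟩ := Pool.Agent.K8h8.UB.exists_bound_up B k d D hd
    exact ⟨N, fun β K L hP hB hK hL hD hdeg => hN β K L hP hB hK.1 hK.2 hL.1.to_normal hL.2 hD hdeg⟩

end Pool.Agent.Results.MP_1f45fc_nt.UniformOverBaseFields
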